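import Pool.Agent.H.MP_7596fa_lc.Codes
import Pool.Agent.H.MP_7596fa_lc.Mach

/-!
The relators and the derivation.
-/

namespace Pool.Agent.H.MP_f5ceca_al

open Pool.Agent.H.MP_7596fa_lc

variable (M : Mach)

/-- the generators -/
abbrev Gen : Type := Fin 6 ⊕ Fin M.nQ ⊕ (Fin M.nQ × Fin M.A) ⊕ (Fin M.nQ × Fin M.A)

def gL : Gen M := Sum.inl 0
def gR : Gen M := Sum.inl 1
def gx : Gen M := Sum.inl 2
def gy : Gen M := Sum.inl 3
def gρ : Gen M := Sum.inl 4
def gρ' : Gen M := Sum.inl 5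
def gc (q : Fin M.nQ) : Gen M := Sum.inr (Sum.inl q)
def gd (t : Fin M.nQ × Fin M.A) : Gen M := Sum.inr (Sum.inr (Sum.inl t))
def gs (t : Fin M.nQ × Fin M.A) : Gen M := Sum.inr (Sum.inr (Sum.inr t))

/-- indices of the relators -/
abbrev Rel : Type := Fin 8 ⊕ Fin M.nQ ⊕ (Fin M.nQ × Fin M.A) ⊕ (Fin M.nQ × Fin M.A) ⊕
  (Fin M.nQ × Fin M.A)

section ring

variable {B : Type*} [Ring B] (a : Gen M → B)

/-- the relators -/
def rel : Rel M → B
  | Sum.inl i => ![a (gx M) * a (gy M) - a (gy M) * a (gx M),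
      a (gρ M) * a (gy M) - a (gy M) * a (gρ M),
      a (gρ' M) * a (gx M) - a (gx M) * a (gρ' M),
      a (gc M M.qh), a (gL M) * a (gρ M), a (gρ M) * a (gR M), a (gL M) * a (gρ' M),
      a (gρ' M) * a (gR M)] i
  | Sum.inr (Sum.inl q) => a (gx M) * a (gc M q) - a (gy M) ^ M.A * a (gc M q)
  | Sum.inr (Sum.inr (Sum.inl t)) =>
      a (gx M) * a (gd M t) - a (gy M) ^ M.b t.1 t.2 * a (gd M t)
  | Sum.inr (Sum.inr (Sum.inr (Sum.inl t))) =>
      a (gρ M) * a (gs M t) - a (gs M t) * a (gρ M) -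
        (a (gd M t) - a (gy M) ^ M.c t.1 t.2 * a (gc M (M.tgt t.1 t.2)))
  | Sum.inr (Sum.inr (Sum.inr (Sum.inr t))) =>
      a (gρ' M) * a (gs M t) - a (gs M t) * a (gρ' M) -
        (a (gy M) ^ (t.2 : ℕ) * a (gc M t.1) - a (gd M t))

/-- the test elements -/
def val (s : Fin M.nQ × ℕ) : B := a (gL M) * a (gy M) ^ s.2 * (a (gc M s.1) * a (gR M))

theorem map_rel {B' : Type*} [Ring B'] (f : B →+* B') (r : Rel M) :
    f (rel M a r) = rel M (fun g => f (a g)) r := by
  rcases r with i | q | t | t | t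
  · fin_cases i <;> simp [rel]
  all_goals simp [rel]

theorem map_val {B' : Type*} [Ring B'] (f : B →+* B') (s : Fin M.nQ × ℕ) :
    f (val M a s) = val M (fun g => f (a g)) s := by
  simp [val]

theorem pow_mul_eq {x y c : B} {k : ℕ} (hxy : Commute x y) (h : x * c = y ^ k * c) (m : ℕ) :
    x ^ m * c = y ^ (k * m) * c := by
  induction m with
  | zero => simp
  | succ m ih =>
    rw [pow_succ, mul_assoc, h, ← mul_assoc, (hxy.pow_pow m k).eq, mul_assoc, ih, ← mul_assoc,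
      ← pow_add]
    congr 2
    ring

variable (h : ∀ r, rel M a r = 0)

include h

theorem val_step (s : Fin M.nQ × ℕ) : val M a (M.step s) = val M a s := by
  have hxy : Commute (a (gx M)) (a (gy M)) := sub_eq_zero.mp (h (Sum.inl 0))
  have hρy : Commute (a (gρ M)) (a (gy M)) := sub_eq_zero.mp (h (Sum.inl 1))
  have hρx : Commute (a (gρ' M)) (a (gx M)) := sub_eq_zero.mp (h (Sum.inl 2))
  have hLρ : a (gL M) * a (gρ M) = 0 := h (Sum.inl 4)
  have hρR : a (gρ M) * a (gR M) = 0 := h (Sum.inl 5)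
  have hLρ' : a (gL M) * a (gρ' M) = 0 := h (Sum.inl 6)
  have hρR' : a (gρ' M) * a (gR M) = 0 := h (Sum.inl 7)
  obtain ⟨q, N⟩ := s
  obtain ⟨j, m, rfl⟩ : ∃ (j : Fin M.A) (m : ℕ), N = M.A * m + j :=
    ⟨⟨N % M.A, Nat.mod_lt _ M.hA⟩, N / M.A, (Nat.div_add_mod N M.A).symm⟩
  rw [M.step_eq]
  have hc := sub_eq_zero.mp (h (Sum.inr (Sum.inl q)))
  have hd := sub_eq_zero.mp (h (Sum.inr (Sum.inr (Sum.inl (q, j)))))
  have he := sub_eq_zero.mp (h (Sum.inr (Sum.inr (Sum.inr (Sum.inl (q, j))))))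
  have hf := sub_eq_zero.mp (h (Sum.inr (Sum.inr (Sum.inr (Sum.inr (q, j))))))
  simp only at hd he hf
  have hc' := pow_mul_eq hxy hc m
  have hd' := pow_mul_eq hxy hd m
  -- the second zero test
  have e1 : a (gL M) * a (gx M) ^ m * (a (gy M) ^ (j : ℕ) * a (gc M q) - a (gd M (q, j))) *
      a (gR M) = 0 := by
    rw [← hf]
    have : a (gL M) * a (gx M) ^ m * (a (gρ' M) * a (gs M (q, j)) - a (gs M (q, j)) * a (gρ' M)) *
      a (gR M) = a (gL M) * (a (gx M) ^ m * a (gρ' M)) * a (gs M (q, j)) * a (gR M) -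
        a (gL M) * a (gx M) ^ m * a (gs M (q, j)) * (a (gρ' M) * a (gR M)) := by
      noncomm_ring
    rw [this, hρR', mul_zero, sub_zero, ← (hρx.pow_right m).eq, ← mul_assoc (a (gL M)), hLρ']
    simp
  have e2 : a (gL M) * a (gy M) ^ (M.b q j * m) * (a (gd M (q, j)) -
      a (gy M) ^ M.c q j * a (gc M (M.tgt q j))) * a (gR M) = 0 := by
    rw [← he]
    have : a (gL M) * a (gy M) ^ (M.b q j * m) * (a (gρ M) * a (gs M (q, j)) -
      a (gs M (q, j)) * a (gρ M)) * a (gR M) =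
      a (gL M) * (a (gy M) ^ (M.b q j * m) * a (gρ M)) * a (gs M (q, j)) * a (gR M) -
        a (gL M) * a (gy M) ^ (M.b q j * m) * a (gs M (q, j)) * (a (gρ M) * a (gR M)) := by
      noncomm_ring
    rw [this, hρR, mul_zero, sub_zero, ← (hρy.pow_right _).eq, ← mul_assoc (a (gL M)), hLρ]
    simp
  have e3 : a (gL M) * (a (gy M) ^ (M.A * m + (j : ℕ)) * a (gc M q)) * a (gR M) =
      a (gL M) * (a (gx M) ^ m * (a (gy M) ^ (j : ℕ) * a (gc M q))) * a (gR M) := by
    rw [← mul_assoc (a (gx M) ^ m), (hxy.pow_pow m j).eq, mul_assoc (a (gy M) ^ (j : ℕ)), hc',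
      ← mul_assoc (a (gy M) ^ (j : ℕ)), ← pow_add, add_comm]
  have e4 : a (gL M) * (a (gx M) ^ m * (a (gy M) ^ (j : ℕ) * a (gc M q))) * a (gR M) =
      a (gL M) * (a (gx M) ^ m * a (gd M (q, j))) * a (gR M) := by
    rw [← sub_eq_zero, ← e1]
    noncomm_ring
  have e5 : a (gL M) * (a (gy M) ^ (M.b q j * m) * a (gd M (q, j))) * a (gR M) =
      a (gL M) * (a (gy M) ^ (M.b q j * m) * (a (gy M) ^ M.c q j * a (gc M (M.tgt q j)))) *
        a (gR M) := by
    rw [← sub_eq_zero, ← e2]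
    noncomm_ring
  calc val M a (M.tgt q j, M.b q j * m + M.c q j)
      = a (gL M) * (a (gy M) ^ (M.b q j * m) * (a (gy M) ^ M.c q j * a (gc M (M.tgt q j)))) *
        a (gR M) := by
        simp only [val, pow_add, mul_assoc]
    _ = a (gL M) * (a (gy M) ^ (M.A * m + (j : ℕ)) * a (gc M q)) * a (gR M) := by
        rw [← e5, ← hd', ← e4, ← e3]
    _ = val M a (q, M.A * m + j) := by
        simp only [val, mul_assoc]

theorem derive (s : Fin M.nQ × ℕ) (hs : M.Halts s) : val M a s = 0 := by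
  obtain ⟨t, ht⟩ := hs
  have h1 : val M a (M.step^[t] s) = val M a s := by
    clear ht
    induction t with
    | zero => rfl
    | succ t ih => rw [Function.iterate_succ_apply', val_step M a h, ih]
  rw [← h1]
  unfold val
  rw [ht]
  have : a (gc M M.qh) = 0 := h (Sum.inl 3)
  rw [this]
  simp

end ring

section code

variable {X : Type*} (F : Type*) [Field F]

/-- code of a letter -/
def ltC (x : X) : Cd X := ([(x, [])], [])

/-- difference of codes -/
def subC (P Q : Cd X) : Cd X := (P.1 ++ Q.2, P.2 ++ Q.1)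

/-- code of `Y ^ N * L` -/
def powL (Y L : Cd X) (N : ℕ) : Cd X := Nat.rec L (fun _ P => mulC Y P) N

theorem codeVal_lt (x : X) : codeVal F (ltC x) = FreeAlgebra.ι F x := by
  simp [codeVal, ltC, wordVal]

theorem codeVal_sub (P Q : Cd X) : codeVal F (subC P Q) = codeVal F P - codeVal F Q := by
  simp only [codeVal, subC, List.map_append, List.sum_append]
  abel

theorem codeVal_powL (Y L : Cd X) (N : ℕ) :
    codeVal F (powL Y L N) = codeVal F Y ^ N * codeVal F L := by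
  induction N with
  | zero => rw [pow_zero, one_mul]; rfl
  | succ N ih =>
    change codeVal F (mulC Y (powL Y L N)) = _
    rw [codeVal_mul, ih, pow_succ', mul_assoc]

variable (e : Gen M → X)

/-- the codes of the relators -/
def relC : Rel M → Cd X
  | Sum.inl i => ![subC (mulC (ltC (e (gx M))) (ltC (e (gy M)))) (mulC (ltC (e (gy M))) (ltC (e (gx M)))),
      subC (mulC (ltC (e (gρ M))) (ltC (e (gy M)))) (mulC (ltC (e (gy M))) (ltC (e (gρ M)))),
      subC (mulC (ltC (e (gρ' M))) (ltC (e (gx M)))) (mulC (ltC (e (gx M))) (ltC (e (gρ' M)))),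
      ltC (e (gc M M.qh)), mulC (ltC (e (gL M))) (ltC (e (gρ M))),
      mulC (ltC (e (gρ M))) (ltC (e (gR M))), mulC (ltC (e (gL M))) (ltC (e (gρ' M))),
      mulC (ltC (e (gρ' M))) (ltC (e (gR M)))] i
  | Sum.inr (Sum.inl q) => subC (mulC (ltC (e (gx M))) (ltC (e (gc M q))))
      (powL (ltC (e (gy M))) (ltC (e (gc M q))) M.A)
  | Sum.inr (Sum.inr (Sum.inl t)) => subC (mulC (ltC (e (gx M))) (ltC (e (gd M t))))
      (powL (ltC (e (gy M))) (ltC (e (gd M t))) (M.b t.1 t.2))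
  | Sum.inr (Sum.inr (Sum.inr (Sum.inl t))) =>
      subC (subC (mulC (ltC (e (gρ M))) (ltC (e (gs M t)))) (mulC (ltC (e (gs M t))) (ltC (e (gρ M)))))
        (subC (ltC (e (gd M t))) (powL (ltC (e (gy M))) (ltC (e (gc M (M.tgt t.1 t.2)))) (M.c t.1 t.2)))
  | Sum.inr (Sum.inr (Sum.inr (Sum.inr t))) =>
      subC (subC (mulC (ltC (e (gρ' M))) (ltC (e (gs M t)))) (mulC (ltC (e (gs M t))) (ltC (e (gρ' M)))))
        (subC (powL (ltC (e (gy M))) (ltC (e (gc M t.1))) (t.2 : ℕ)) (ltC (e (gd M t))))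

theorem codeVal_relC (r : Rel M) :
    codeVal F (relC M e r) = rel M (fun g => FreeAlgebra.ι F (e g)) r := by
  rcases r with i | q | t | t | t
  · fin_cases i <;> simp [rel, relC, codeVal_sub, codeVal_mul, codeVal_lt]
  all_goals simp only [rel, relC, codeVal_sub, codeVal_mul, codeVal_lt, codeVal_powL]

/-- the codes of the test elements -/
def testC (N : ℕ) : Cd X :=
  mulC (powC (ltC (e (gL M))) (ltC (e (gy M))) N) (mulC (ltC (e (gc M M.q0))) (ltC (e (gR M))))

theorem codeVal_testC (N : ℕ) :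
    codeVal F (testC M e N) = val M (fun g => FreeAlgebra.ι F (e g)) (M.q0, N) := by
  simp only [testC, val, codeVal_mul, codeVal_powC, codeVal_lt]

theorem primrec_testC [Primcodable X] : Primrec (testC M e) :=
  primrec_mulC.comp (primrec_powC _ _) (Primrec.const _)

end code

end Pool.Agent.H.MP_f5ceca_al
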