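import Pool.Agent.H.MP_f5ceca_al.Letters
import Pool.Agent.H.MP_7596fa_lc.RegMach

/-!
Assembly.
-/

namespace Pool.Agent.H.MP_f5ceca_al

universe u

open Pool.Agent.H.MP_7596fa_lc

section core

variable (M : Mach) (K : Type u) [Field K] [CharZero K] {X : Type} (e : Gen M ≃ X)

/-- the set of relators -/
def rels : Set (FreeAlgebra K X) := Set.range fun r => codeVal K (relC M e r)

/-- the test representation -/
noncomputable def φt : FreeAlgebra K X →ₐ[K] Unitization K (TT M K) :=
  FreeAlgebra.lift K fun x => ((tl M K (e.symm x) : TT M K) : Unitization K (TT M K))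

theorem φt_letters : (fun g => φt M K e (FreeAlgebra.ι K (e g))) = ul M K := by
  funext g
  unfold φt ul
  rw [FreeAlgebra.lift_ι_apply, Equiv.symm_apply_apply]

theorem core (I : Set (FreeAlgebra K X)) (hI : ∀ g ∈ I, φt M K e g = 0) (N : ℕ) :
    codeVal K (testC M e N) ∈ TwoSidedIdeal.span (I ∪ rels M K e) ↔ M.Halts (M.q0, N) := by
  constructor
  · intro h
    by_contra hN
    have h1 : TwoSidedIdeal.span (I ∪ rels M K e) ≤ TwoSidedIdeal.ker (φt M K e) := by
      rw [TwoSidedIdeal.span_le]
      rintro g (hg | ⟨r, rfl⟩)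
      · exact (TwoSidedIdeal.mem_ker _).mpr (hI g hg)
      · refine (TwoSidedIdeal.mem_ker _).mpr ?_
        beta_reduce
        rw [codeVal_relC]
        have := map_rel M (fun g => FreeAlgebra.ι K (e g)) (φt M K e).toRingHom r
        change φt M K e _ = rel M (fun g => φt M K e (FreeAlgebra.ι K (e g))) r at this
        rw [this, φt_letters]
        exact ul_rel M K r
    have h2 : φt M K e (codeVal K (testC M e N)) = 0 := (TwoSidedIdeal.mem_ker _).mp (h1 h)
    rw [codeVal_testC] at h2
    have := map_val M (fun g => FreeAlgebra.ι K (e g)) (φt M K e).toRingHom (M.q0, N)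
    change φt M K e _ = val M (fun g => φt M K e (FreeAlgebra.ι K (e g))) (M.q0, N) at this
    rw [this, φt_letters] at h2
    exact ul_val M K N hN h2
  · intro hN
    set J := TwoSidedIdeal.span (I ∪ rels M K e) with hJ
    let π : FreeAlgebra K X →ₐ[K] J.ringCon.Quotient :=
      { J.ringCon.mk' with commutes' := fun r => rfl }
    have hπ : ∀ x, π x = 0 ↔ x ∈ J := by
      intro x
      rw [TwoSidedIdeal.mem_iff]
      exact RingCon.eq _
    rw [← hπ, codeVal_testC]
    have h1 := map_val M (fun g => FreeAlgebra.ι K (e g)) π.toRingHom (M.q0, N)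
    change π _ = val M (fun g => π (FreeAlgebra.ι K (e g))) (M.q0, N) at h1
    rw [h1]
    refine derive M _ (fun r => ?_) _ hN
    have h2 := map_rel M (fun g => FreeAlgebra.ι K (e g)) π.toRingHom r
    change π _ = rel M (fun g => π (FreeAlgebra.ι K (e g))) r at h2
    rw [← h2, ← codeVal_relC, hπ]
    exact TwoSidedIdeal.subset_span (Or.inr ⟨r, rfl⟩)

end core

theorem tt_W1 (M : Mach) (K : Type u) [Field K] (x y z t u v : TT M K) :
    x * (y * z - z * y) * (t * u - u * t) * v = 0 :=
  TA.W1 (opAlg_W1 (Dx M K) (Dy M K)) x y z t u v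

theorem tt_W2 (M : Mach) (K : Type u) [Field K] (x y z t u : TT M K) :
    x * ((y * z - z * y) * t - t * (y * z - z * y)) * u = 0 :=
  TA.W2 (opAlg_W2 (Dx M K) (Dy M K)) x y z t u

/-- The master theorem: `I` is any set of elements which vanish in the algebras with the two
identities. -/
theorem master : ∃ (k : ℕ) (R : List (Cd (Fin k))), ∀ (K : Type u) [Field K] [CharZero K]
    (I : Set (FreeAlgebra K (Fin k))),
    (∀ (A : Type u) [NonUnitalRing A] [Module K A] [IsScalarTower K A A] [SMulCommClass K A A],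
      (∀ x y z t u v : A, x * (y * z - z * y) * (t * u - u * t) * v = 0) →
      (∀ x y z t u : A, x * ((y * z - z * y) * t - t * (y * z - z * y)) * u = 0) →
      ∀ g ∈ I, ∀ v : Fin k → A,
        FreeAlgebra.lift K (fun i => ((v i : A) : Unitization K A)) g = 0) →
    ¬ ComputablePred fun P : Cd (Fin k) =>
      codeVal K P ∈ TwoSidedIdeal.span (I ∪ {g | ∃ r ∈ R, codeVal K r = g}) := by
  obtain ⟨M, c, hM⟩ := exists_mach
  let e : Gen M ≃ Fin (Fintype.card (Gen M)) := Fintype.equivFin (Gen M)
  refine ⟨Fintype.card (Gen M), (Finset.univ : Finset (Rel M)).toList.map (relC M e), ?_⟩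
  intro K _ _ I hI hcomp
  apply hM
  have hR : {g | ∃ r ∈ (Finset.univ : Finset (Rel M)).toList.map (relC M e), codeVal K r = g} =
      rels M K e := by
    ext g
    constructor
    · rintro ⟨_, hr, rfl⟩
      obtain ⟨r, _, rfl⟩ := List.mem_map.mp hr
      exact ⟨r, rfl⟩
    · rintro ⟨r, rfl⟩
      exact ⟨_, List.mem_map.mpr ⟨r, Finset.mem_toList.mpr (Finset.mem_univ r), rfl⟩, rfl⟩
  rw [hR] at hcomp
  have hred : ∀ N, codeVal K (testC M e N) ∈ TwoSidedIdeal.span (I ∪ rels M K e) ↔
      M.Halts (M.q0, N) :=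
    core M K e I (fun g hg => hI (TT M K) (tt_W1 M K) (tt_W2 M K) g hg _)
  refine ComputablePred.computable_of_manyOneReducible ?_ hcomp
  refine ⟨fun n => testC M e (2 ^ n * c), ?_, fun n => (hred _).symm⟩
  have hpow : Primrec fun n : ℕ => 2 ^ n * c := by
    refine Primrec.nat_mul.comp ?_ (Primrec.const c)
    have : Primrec (Nat.rec 1 (fun _ x => x * 2) : ℕ → ℕ) :=
      Primrec.nat_rec₁ 1 (Primrec.nat_mul.comp Primrec.snd (Primrec.const 2))
    refine this.of_eq fun n => ?_
    induction n with
    | zero => rfl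
    | succ n ih => rw [pow_succ, ← ih]
  exact ((primrec_testC M e).comp hpow).to_comp

end Pool.Agent.H.MP_f5ceca_al
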