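import Mathlib

/-!
Functionals on polynomial rings and derivations with values in the dual module.
-/

namespace Pool.Agent.H.MP_f5ceca_al

section dual

variable (K : Type*) [Field K] (P : Type*) [CommRing P] [Algebra K P]

/-- the dual space of `P` -/
def Dl : Type _ := P →ₗ[K] K

namespace Dl

instance : AddCommGroup (Dl K P) := inferInstanceAs (AddCommGroup (P →ₗ[K] K))
instance : Module K (Dl K P) := inferInstanceAs (Module K (P →ₗ[K] K))

variable {K P}

/-- evaluation -/
def ev (φ : Dl K P) : P →ₗ[K] K := φ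

theorem ext {φ ψ : Dl K P} (h : ∀ p, ev φ p = ev ψ p) : φ = ψ := LinearMap.ext h

@[simp] theorem ev_add (φ ψ : Dl K P) (p : P) : ev (φ + ψ) p = ev φ p + ev ψ p := rfl
@[simp] theorem ev_sub (φ ψ : Dl K P) (p : P) : ev (φ - ψ) p = ev φ p - ev ψ p := rfl
@[simp] theorem ev_zero (p : P) : ev (0 : Dl K P) p = 0 := rfl
@[simp] theorem ev_smulK (c : K) (φ : Dl K P) (p : P) : ev (c • φ) p = c * ev φ p := rfl

instance : SMul P (Dl K P) := ⟨fun g φ => (ev φ) ∘ₗ LinearMap.mulLeft K g⟩

@[simp] theorem ev_smul (g : P) (φ : Dl K P) (p : P) : ev (g • φ) p = ev φ (g * p) := rfl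

instance : Module P (Dl K P) where
  one_smul φ := ext fun p => by simp
  mul_smul g h φ := ext fun p => by simp [mul_assoc, mul_left_comm]
  smul_zero g := ext fun p => by simp
  smul_add g φ ψ := ext fun p => by simp
  add_smul g h φ := ext fun p => by simp [add_mul]
  zero_smul φ := ext fun p => by simp

instance : IsScalarTower K P (Dl K P) :=
  ⟨fun c g φ => ext fun p => by simp⟩

/-- the value at `1` as a functional -/
def th : Dl K P →ₗ[K] K where
  toFun φ := ev φ 1
  map_add' _ _ := rfl
  map_smul' _ _ := rfl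

theorem th_apply (φ : Dl K P) : th φ = ev φ 1 := rfl

end Dl

end dual

section poly

variable {K : Type*} [Field K] {σ : Type*} [Fintype σ] [DecidableEq σ]

open MvPolynomial

/-- the functional with given values on the monomials -/
noncomputable def fn (f : (σ →₀ ℕ) → K) : Dl K (MvPolynomial σ K) :=
  (basisMonomials σ K).constr K f

theorem ev_fn (f : (σ →₀ ℕ) → K) (s : σ →₀ ℕ) : Dl.ev (fn f) (monomial s 1) = f s := by
  have := (basisMonomials σ K).constr_basis K f s
  rwa [coe_basisMonomials] at this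

theorem dl_ext {φ ψ : Dl K (MvPolynomial σ K)}
    (h : ∀ s, Dl.ev φ (monomial s 1) = Dl.ev ψ (monomial s 1)) : φ = ψ := by
  have : Dl.ev φ = Dl.ev ψ := by
    refine (basisMonomials σ K).ext fun s => ?_
    rw [coe_basisMonomials]
    exact h s
  exact this

theorem fn_congr {f g : (σ →₀ ℕ) → K} (h : ∀ s, f s = g s) : fn f = fn g := by
  rw [funext h]

theorem X_pow_smul_fn (i : σ) (n : ℕ) (f : (σ →₀ ℕ) → K) :
    ((X i : MvPolynomial σ K) ^ n) • fn f = fn fun s => f (s + Finsupp.single i n) := by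
  refine dl_ext fun s => ?_
  rw [Dl.ev_smul, ev_fn, X_pow_eq_monomial, monomial_mul, one_mul, ev_fn, add_comm]

theorem fn_sub (f g : (σ →₀ ℕ) → K) : fn f - fn g = fn fun s => f s - g s := by
  refine dl_ext fun s => ?_
  rw [Dl.ev_sub, ev_fn, ev_fn, ev_fn]

/-- the values of the derivation: at `x0` they are chosen so that the value at `1` vanishes -/
noncomputable def vals (x0 : σ) (u : σ → (σ →₀ ℕ) → K) (i : σ) (s : σ →₀ ℕ) : K :=
  if i = x0 then
    -((s x0 + 1 : K)⁻¹) * ∑ k ∈ Finset.univ.erase x0,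
      (s k : K) * u k (s + Finsupp.single x0 1 - Finsupp.single k 1)
  else u i s

/-- the derivation -/
noncomputable def der (x0 : σ) (u : σ → (σ →₀ ℕ) → K) :
    Derivation K (MvPolynomial σ K) (Dl K (MvPolynomial σ K)) :=
  mkDerivation K fun i => fn (vals x0 u i)

theorem der_X (x0 : σ) (u : σ → (σ →₀ ℕ) → K) (i : σ) (hi : i ≠ x0) :
    der x0 u (X i) = fn (u i) := by
  unfold der
  rw [mkDerivation_X]
  apply fn_congr
  intro s
  rw [vals, if_neg hi]

theorem ev_der_monomial (x0 : σ) (u : σ → (σ →₀ ℕ) → K) (s : σ →₀ ℕ) :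
    Dl.ev (der x0 u (monomial s 1)) 1 =
      ∑ i, (s i : K) * vals x0 u i (s - Finsupp.single i 1) := by
  unfold der
  rw [mkDerivation_monomial, one_smul, Finsupp.sum_fintype]
  · rw [← Dl.th_apply, map_sum]
    refine Finset.sum_congr rfl fun i _ => ?_
    rw [Dl.th_apply, Dl.ev_smul, mul_one]
    have : (monomial (s - Finsupp.single i 1) (s i : K) : MvPolynomial σ K) =
        (s i : K) • monomial (s - Finsupp.single i 1) 1 := by
      rw [smul_monomial, smul_eq_mul, mul_one]
    rw [this, map_smul, ev_fn, smul_eq_mul]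
  · intro i
    simp

theorem ev_der [CharZero K] (x0 : σ) (u : σ → (σ →₀ ℕ) → K)
    (hu : ∀ i, i ≠ x0 → ∀ s : σ →₀ ℕ, s x0 = 0 → u i s = 0) (p : MvPolynomial σ K) :
    Dl.ev (der x0 u p) 1 = 0 := by
  have key : Dl.th ∘ₗ (der x0 u : MvPolynomial σ K →ₗ[K] Dl K (MvPolynomial σ K)) = 0 := by
    refine (basisMonomials σ K).ext fun s => ?_
    rw [coe_basisMonomials]
    change Dl.ev (der x0 u (monomial s 1)) 1 = 0
    rw [ev_der_monomial, ← Finset.add_sum_erase _ _ (Finset.mem_univ x0)]
    have h2 : ∑ i ∈ Finset.univ.erase x0, (s i : K) * vals x0 u i (s - Finsupp.single i 1) =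
        ∑ i ∈ Finset.univ.erase x0, (s i : K) * u i (s - Finsupp.single i 1) := by
      refine Finset.sum_congr rfl fun i hi => ?_
      rw [vals, if_neg (Finset.ne_of_mem_erase hi)]
    rw [h2]
    by_cases hs : s x0 = 0
    · rw [hs, Nat.cast_zero, zero_mul, zero_add]
      refine Finset.sum_eq_zero fun i hi => ?_
      rw [hu i (Finset.ne_of_mem_erase hi), mul_zero]
      simp [hs]
    · rw [vals, if_pos rfl]
      have h3 : s - Finsupp.single x0 1 + Finsupp.single x0 1 = s := by
        apply tsub_add_cancel_of_le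
        rw [Finsupp.single_le_iff]
        omega
      have h4 : ((s - Finsupp.single x0 1 : σ →₀ ℕ) x0 : K) + 1 = s x0 := by
        have : (s - Finsupp.single x0 1 : σ →₀ ℕ) x0 + 1 = s x0 := by
          rw [Finsupp.tsub_apply, Finsupp.single_eq_same]
          omega
        rw [← this]
        push_cast
        ring
      have h5 : (s x0 : K) ≠ 0 := by exact_mod_cast hs
      rw [h4, h3]
      have h6 : ∑ k ∈ Finset.univ.erase x0, ((s - Finsupp.single x0 1 : σ →₀ ℕ) k : K) *
          u k (s - Finsupp.single k 1) =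
          ∑ i ∈ Finset.univ.erase x0, (s i : K) * u i (s - Finsupp.single i 1) := by
        refine Finset.sum_congr rfl fun i hi => ?_
        have : (s - Finsupp.single x0 1 : σ →₀ ℕ) i = s i := by
          rw [Finsupp.tsub_apply, Finsupp.single_apply,
            if_neg (Ne.symm (Finset.ne_of_mem_erase hi)), tsub_zero]
        rw [this]
      rw [h6, ← mul_assoc, mul_neg, mul_inv_cancel₀ h5]
      ring
  exact LinearMap.congr_fun key p

end poly

end Pool.Agent.H.MP_f5ceca_al
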