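import Mathlib

/-!
The flanked algebra of an algebra of operators.
-/

namespace Pool.Agent.H.MP_f5ceca_al

universe u

section TA

variable (K : Type*) [Field K] (V : Type*) [AddCommGroup V] [Module K V]
  (B : Subalgebra K (Module.End K V))

/-- the algebra of block matrices `0 l k; 0 b r; 0 0 0` -/
def TA : Type _ := (V →ₗ[K] K) × K × B × V

namespace TA

instance : AddCommGroup (TA K V B) := inferInstanceAs (AddCommGroup ((V →ₗ[K] K) × K × B × V))
instance : Module K (TA K V B) := inferInstanceAs (Module K ((V →ₗ[K] K) × K × B × V))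

variable {K V B}

def l (x : TA K V B) : V →ₗ[K] K := x.1
def k (x : TA K V B) : K := x.2.1
def b (x : TA K V B) : B := x.2.2.1
def r (x : TA K V B) : V := x.2.2.2

@[ext] theorem ext {x y : TA K V B} (h1 : x.l = y.l) (h2 : x.k = y.k) (h3 : x.b = y.b)
    (h4 : x.r = y.r) : x = y :=
  Prod.ext h1 (Prod.ext h2 (Prod.ext h3 h4))

@[simp] theorem l_add (x y : TA K V B) : (x + y).l = x.l + y.l := rfl
@[simp] theorem k_add (x y : TA K V B) : (x + y).k = x.k + y.k := rfl
@[simp] theorem b_add (x y : TA K V B) : (x + y).b = x.b + y.b := rfl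
@[simp] theorem r_add (x y : TA K V B) : (x + y).r = x.r + y.r := rfl
@[simp] theorem l_sub (x y : TA K V B) : (x - y).l = x.l - y.l := rfl
@[simp] theorem k_sub (x y : TA K V B) : (x - y).k = x.k - y.k := rfl
@[simp] theorem b_sub (x y : TA K V B) : (x - y).b = x.b - y.b := rfl
@[simp] theorem r_sub (x y : TA K V B) : (x - y).r = x.r - y.r := rfl
@[simp] theorem l_zero : (0 : TA K V B).l = 0 := rfl
@[simp] theorem k_zero : (0 : TA K V B).k = 0 := rfl
@[simp] theorem b_zero : (0 : TA K V B).b = 0 := rfl
@[simp] theorem r_zero : (0 : TA K V B).r = 0 := rfl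
@[simp] theorem l_smul (c : K) (x : TA K V B) : (c • x).l = c • x.l := rfl
@[simp] theorem k_smul (c : K) (x : TA K V B) : (c • x).k = c • x.k := rfl
@[simp] theorem b_smul (c : K) (x : TA K V B) : (c • x).b = c • x.b := rfl
@[simp] theorem r_smul (c : K) (x : TA K V B) : (c • x).r = c • x.r := rfl

instance : Mul (TA K V B) :=
  ⟨fun x y => (x.l ∘ₗ (y.b : Module.End K V), x.l y.r, x.b * y.b, (x.b : Module.End K V) y.r)⟩

@[simp] theorem l_mul (x y : TA K V B) : (x * y).l = x.l ∘ₗ (y.b : Module.End K V) := rfl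
@[simp] theorem k_mul (x y : TA K V B) : (x * y).k = x.l y.r := rfl
@[simp] theorem b_mul (x y : TA K V B) : (x * y).b = x.b * y.b := rfl
@[simp] theorem r_mul (x y : TA K V B) : (x * y).r = (x.b : Module.End K V) y.r := rfl

instance : NonUnitalRing (TA K V B) :=
  { (inferInstance : AddCommGroup (TA K V B)), (inferInstance : Mul (TA K V B)) with
    left_distrib := by
      intro x y z
      ext <;> simp [mul_add]
    right_distrib := by
      intro x y z
      ext <;> simp [add_mul]
    zero_mul := by
      intro x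
      ext <;> simp
    mul_zero := by
      intro x
      ext <;> simp
    mul_assoc := by
      intro x y z
      ext <;> simp [mul_assoc] }

instance : IsScalarTower K (TA K V B) (TA K V B) :=
  ⟨fun c x y => by
    change (c • x) * y = c • (x * y)
    ext <;> simp⟩

instance : SMulCommClass K (TA K V B) (TA K V B) :=
  ⟨fun c x y => by
    change c • (x * y) = x * (c • y)
    ext <;> simp⟩

theorem mid (x w v : TA K V B) (h : w.b = 0) : x * w * v = 0 := by
  ext <;> simp [h]

/-- the two identities -/
theorem W1 (hB : ∀ y z t u : B, (y * z - z * y) * (t * u - u * t) = 0)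
    (x y z t u v : TA K V B) : x * (y * z - z * y) * (t * u - u * t) * v = 0 := by
  rw [mul_assoc x]
  exact mid _ _ _ (by simp [hB])

theorem W2 (hB : ∀ y z t : B, (y * z - z * y) * t - t * (y * z - z * y) = 0)
    (x y z t u : TA K V B) : x * ((y * z - z * y) * t - t * (y * z - z * y)) * u = 0 := by
  exact mid _ _ _ (by simp [hB])

/-- the middle elements -/
def j (b : B) : TA K V B := (0, 0, b, 0)
/-- the left elements -/
def jl (f : V →ₗ[K] K) : TA K V B := (f, 0, 0, 0)
/-- the right elements -/
def jr (v : V) : TA K V B := (0, 0, 0, v)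

/-- the corner elements -/
def jk (c : K) : TA K V B := (0, c, 0, 0)

@[simp] theorem l_jk (c : K) : (jk c : TA K V B).l = 0 := rfl
@[simp] theorem k_jk (c : K) : (jk c : TA K V B).k = c := rfl
@[simp] theorem b_jk (c : K) : (jk c : TA K V B).b = 0 := rfl
@[simp] theorem r_jk (c : K) : (jk c : TA K V B).r = 0 := rfl
@[simp] theorem l_j (b : B) : (j b).l = 0 := rfl
@[simp] theorem k_j (b : B) : (j b).k = 0 := rfl
@[simp] theorem b_j (b : B) : (j b).b = b := rfl
@[simp] theorem r_j (b : B) : (j b).r = 0 := rfl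
@[simp] theorem l_jl (f : V →ₗ[K] K) : (jl f : TA K V B).l = f := rfl
@[simp] theorem k_jl (f : V →ₗ[K] K) : (jl f : TA K V B).k = 0 := rfl
@[simp] theorem b_jl (f : V →ₗ[K] K) : (jl f : TA K V B).b = 0 := rfl
@[simp] theorem r_jl (f : V →ₗ[K] K) : (jl f : TA K V B).r = 0 := rfl
@[simp] theorem l_jr (v : V) : (jr v : TA K V B).l = 0 := rfl
@[simp] theorem k_jr (v : V) : (jr v : TA K V B).k = 0 := rfl
@[simp] theorem b_jr (v : V) : (jr v : TA K V B).b = 0 := rfl
@[simp] theorem r_jr (v : V) : (jr v : TA K V B).r = v := rfl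

theorem j_mul (b c : B) : (j b * j c : TA K V B) = j (b * c) := by ext <;> simp
theorem j_sub (b c : B) : (j b - j c : TA K V B) = j (b - c) := by ext <;> simp
theorem jl_mul (f : V →ₗ[K] K) (c : B) :
    (jl f * j c : TA K V B) = jl (f ∘ₗ (c : Module.End K V)) := by ext <;> simp
theorem mul_jr (c : B) (v : V) : (j c * jr v : TA K V B) = jr ((c : Module.End K V) v) := by
  ext <;> simp

section unitization

/-- middle elements in the unitization -/
def J (b : B) : Unitization K (TA K V B) := ((j b : TA K V B) : Unitization K (TA K V B))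

theorem J_mul (b c : B) : J b * J c = (J (b * c) : Unitization K (TA K V B)) := by
  unfold J
  rw [← Unitization.inr_mul, j_mul]

theorem J_sub (b c : B) : J b - J c = (J (b - c) : Unitization K (TA K V B)) := by
  unfold J
  rw [← Unitization.inr_sub, j_sub]

theorem J_zero : (J 0 : Unitization K (TA K V B)) = 0 := by
  unfold J
  have : (j 0 : TA K V B) = 0 := by ext <;> simp
  rw [this, Unitization.inr_zero]

theorem J_pow_mul (b c : B) (n : ℕ) :
    J b ^ n * J c = (J (b ^ n * c) : Unitization K (TA K V B)) := by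
  induction n with
  | zero => simp
  | succ n ih => rw [pow_succ', mul_assoc, ih, J_mul, pow_succ', mul_assoc]

theorem jl_mul_J (f : V →ₗ[K] K) (c : B) :
    ((jl f : TA K V B) : Unitization K (TA K V B)) * J c =
      ((jl (f ∘ₗ (c : Module.End K V)) : TA K V B) : Unitization K (TA K V B)) := by
  unfold J
  rw [← Unitization.inr_mul, jl_mul]

theorem J_mul_jr (c : B) (v : V) :
    J c * ((jr v : TA K V B) : Unitization K (TA K V B)) =
      ((jr ((c : Module.End K V) v) : TA K V B) : Unitization K (TA K V B)) := by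
  unfold J
  rw [← Unitization.inr_mul, mul_jr]

theorem jl_mul_J_pow (f : V →ₗ[K] K) (c : B) (n : ℕ) :
    ((jl f : TA K V B) : Unitization K (TA K V B)) * J c ^ n =
      ((jl (f ∘ₗ ((c ^ n : B) : Module.End K V)) : TA K V B) : Unitization K (TA K V B)) := by
  induction n with
  | zero => 
    rw [pow_zero, pow_zero, mul_one]
    rfl
  | succ n ih =>
    rw [pow_succ, ← mul_assoc, ih, jl_mul_J, pow_succ]
    rfl

theorem jl_mul_jr (f : V →ₗ[K] K) (v : V) :
    ((jl f : TA K V B) : Unitization K (TA K V B)) *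
      ((jr v : TA K V B) : Unitization K (TA K V B)) =
      ((jk (f v) : TA K V B) : Unitization K (TA K V B)) := by
  rw [← Unitization.inr_mul]
  congr 1
  apply TA.ext <;> simp

end unitization

end TA

end TA

section ops

variable {K : Type*} [Field K] {P : Type*} [CommRing P] [Algebra K P]
  {N : Type*} [AddCommGroup N] [Module K N] [Module P N] [IsScalarTower K P N]
  (D D' : Derivation K P N)

/-- the operators -/
def op (g a a' : P) (m : N) : Module.End K (P × N) where
  toFun p := (g * p.1, g • p.2 + a • D p.1 + a' • D' p.1 + p.1 • m)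
  map_add' p q := by
    ext
    · simp [mul_add]
    · simp only [Prod.snd_add, Prod.fst_add, smul_add, map_add, add_smul]; abel
  map_smul' c p := by
    ext
    · simp
    · have e1 : D (c • p.1) = c • D p.1 := D.map_smul c p.1
      have e2 : D' (c • p.1) = c • D' p.1 := D'.map_smul c p.1
      simp only [Prod.smul_snd, Prod.smul_fst, RingHom.id_apply, smul_add, smul_assoc, e1, e2]
      rw [smul_comm g c, smul_comm a c, smul_comm a' c]

theorem op_apply (g a a' : P) (m : N) (p : P × N) :
    op D D' g a a' m p = (g * p.1, g • p.2 + a • D p.1 + a' • D' p.1 + p.1 • m) := rfl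

theorem op_mul (g a a' : P) (m : N) (h b b' : P) (n : N) :
    op D D' g a a' m * op D D' h b b' n =
      op D D' (g * h) (g * b + a * h) (g * b' + a' * h)
        (g • n + h • m + a • D h + a' • D' h) := by
  refine LinearMap.ext fun p => ?_
  rw [Module.End.mul_apply]
  simp only [op_apply]
  ext
  · simp [mul_assoc]
  · simp only [Derivation.leibniz, smul_add, add_smul, mul_smul]
    have e1 : p.1 • g • n = g • p.1 • n := smul_comm _ _ _
    have e2 : p.1 • h • m = h • p.1 • m := smul_comm _ _ _
    have e3 : p.1 • a • D h = a • p.1 • D h := smul_comm _ _ _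
    have e4 : p.1 • a' • D' h = a' • p.1 • D' h := smul_comm _ _ _
    rw [e1, e2, e3, e4]
    abel

theorem op_add (g a a' : P) (m : N) (h b b' : P) (n : N) :
    op D D' g a a' m + op D D' h b b' n = op D D' (g + h) (a + b) (a' + b') (m + n) := by
  refine LinearMap.ext fun p => ?_
  rw [LinearMap.add_apply]
  simp only [op_apply]
  ext
  · simp [add_mul]
  · simp only [Prod.mk_add_mk, add_smul, smul_add]
    abel

theorem op_sub (g a a' : P) (m : N) (h b b' : P) (n : N) :
    op D D' g a a' m - op D D' h b b' n = op D D' (g - h) (a - b) (a' - b') (m - n) := by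
  rw [sub_eq_iff_eq_add, op_add]
  simp

theorem op_algebraMap (c : K) :
    algebraMap K (Module.End K (P × N)) c = op D D' (algebraMap K P c) 0 0 0 := by
  refine LinearMap.ext fun p => ?_
  rw [op_apply, Module.algebraMap_end_apply]
  ext
  · simp [Algebra.smul_def]
  · simp

theorem op_zero : op D D' 0 0 0 (0 : N) = 0 := by
  refine LinearMap.ext fun p => ?_
  rw [op_apply]
  simp

/-- the algebra of operators -/
def opAlg : Subalgebra K (Module.End K (P × N)) where
  carrier := {T | ∃ g a a' m, T = op D D' g a a' m}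
  mul_mem' := by
    rintro _ _ ⟨g, a, a', m, rfl⟩ ⟨h, b, b', n, rfl⟩
    exact ⟨_, _, _, _, op_mul D D' g a a' m h b b' n⟩
  add_mem' := by
    rintro _ _ ⟨g, a, a', m, rfl⟩ ⟨h, b, b', n, rfl⟩
    exact ⟨_, _, _, _, op_add D D' g a a' m h b b' n⟩
  algebraMap_mem' c := ⟨_, _, _, _, op_algebraMap D D' c⟩

/-- an operator as an element of the algebra -/
def o (g a a' : P) (m : N) : opAlg D D' := ⟨op D D' g a a' m, g, a, a', m, rfl⟩

@[simp] theorem coe_o (g a a' : P) (m : N) :
    (o D D' g a a' m : Module.End K (P × N)) = op D D' g a a' m := rfl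

theorem o_mul (g a a' : P) (m : N) (h b b' : P) (n : N) :
    o D D' g a a' m * o D D' h b b' n =
      o D D' (g * h) (g * b + a * h) (g * b' + a' * h)
        (g • n + h • m + a • D h + a' • D' h) := Subtype.ext (op_mul D D' g a a' m h b b' n)

theorem o_sub (g a a' : P) (m : N) (h b b' : P) (n : N) :
    o D D' g a a' m - o D D' h b b' n = o D D' (g - h) (a - b) (a' - b') (m - n) :=
  Subtype.ext (op_sub D D' g a a' m h b b' n)

theorem o_zero : o D D' 0 0 0 (0 : N) = 0 := Subtype.ext (op_zero D D')

theorem exists_o (x : opAlg D D') : ∃ g a a' m, x = o D D' g a a' m := by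
  obtain ⟨T, g, a, a', m, rfl⟩ := x
  exact ⟨g, a, a', m, rfl⟩

theorem comm_o (x y : opAlg D D') : ∃ m, x * y - y * x = o D D' 0 0 0 m := by
  obtain ⟨g, a, a', m, rfl⟩ := exists_o D D' x
  obtain ⟨h, b, b', n, rfl⟩ := exists_o D D' y
  refine ⟨a • D h + a' • D' h - (b • D g + b' • D' g), ?_⟩
  rw [o_mul, o_mul, o_sub]
  congr 1
  · ring
  · ring
  · ring
  · abel

theorem opAlg_W1 (y z t u : opAlg D D') : (y * z - z * y) * (t * u - u * t) = 0 := by
  obtain ⟨m, hm⟩ := comm_o D D' y z
  obtain ⟨n, hn⟩ := comm_o D D' t u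
  rw [hm, hn, o_mul, ← o_zero]
  congr 1 <;> simp

theorem opAlg_W2 (y z t : opAlg D D') : (y * z - z * y) * t - t * (y * z - z * y) = 0 := by
  obtain ⟨m, hm⟩ := comm_o D D' y z
  obtain ⟨h, b, b', n, rfl⟩ := exists_o D D' t
  rw [hm, o_mul, o_mul, o_sub, ← o_zero]
  congr 1 <;> simp

end ops

end Pool.Agent.H.MP_f5ceca_al
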