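import Pool.Agent.H.MP_f5ceca_al.Defs
import Pool.Agent.H.MP_f5ceca_al.TestAlg
import Pool.Agent.H.MP_f5ceca_al.Func

/-!
The elements of the test algebra.
-/

namespace Pool.Agent.H.MP_f5ceca_al

open Pool.Agent.H.MP_7596fa_lc MvPolynomial

section

variable (M : Mach) (K : Type*) [Field K]

/-- the variables -/
abbrev Sg : Type := Fin 2 ⊕ (Fin M.nQ × Fin M.A)

/-- the polynomial ring -/
abbrev Po : Type _ := MvPolynomial (Sg M) K

open Classical in
/-- `0` on the halting configurations and `1` on the others -/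
noncomputable def hh (s : Fin M.nQ × ℕ) : K := if M.Halts s then 0 else 1

theorem hh_step (s : Fin M.nQ × ℕ) : hh M K (M.step s) = hh M K s := by
  classical
  unfold hh
  simp only [M.halts_step]

theorem hh_qh (N : ℕ) : hh M K (M.qh, N) = 0 := by
  unfold hh
  rw [if_pos (M.halts_qh N)]

/-- no variable of the second kind -/
def zs (s : Sg M →₀ ℕ) : Prop := ∀ t, s (Sum.inr t) = 0

open Classical in
noncomputable def χc (q : Fin M.nQ) (s : Sg M →₀ ℕ) : K :=
  if zs M s then hh M K (q, M.A * s (Sum.inl 0) + s (Sum.inl 1)) else 0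

open Classical in
noncomputable def χd (t : Fin M.nQ × Fin M.A) (s : Sg M →₀ ℕ) : K :=
  if zs M s then hh M K (M.tgt t.1 t.2, M.b t.1 t.2 * s (Sum.inl 0) + s (Sum.inl 1) + M.c t.1 t.2)
  else 0

noncomputable def ux : Sg M → (Sg M →₀ ℕ) → K
  | Sum.inl _ => fun _ => 0
  | Sum.inr t => fun s => χd M K t s -
      χc M K (M.tgt t.1 t.2) (s + Finsupp.single (Sum.inl 1) (M.c t.1 t.2))

noncomputable def uy : Sg M → (Sg M →₀ ℕ) → K
  | Sum.inl _ => fun _ => 0
  | Sum.inr t => fun s => χc M K t.1 (s + Finsupp.single (Sum.inl 1) (t.2 : ℕ)) - χd M K t s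

theorem zs_add (s : Sg M →₀ ℕ) (i : Fin 2) (n : ℕ) :
    zs M (s + Finsupp.single (Sum.inl i) n) ↔ zs M s := by
  unfold zs
  simp

theorem ux_zero (i : Sg M) (s : Sg M →₀ ℕ) (hs : s (Sum.inl 0) = 0) : ux M K i s = 0 := by
  classical
  rcases i with i | t
  · rfl
  · simp only [ux, χd, χc, zs_add]
    split_ifs
    · rw [sub_eq_zero]
      congr 1
      simp [hs]
    · simp

theorem uy_zero (i : Sg M) (s : Sg M →₀ ℕ) (hs : s (Sum.inl 1) = 0) : uy M K i s = 0 := by
  classical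
  rcases i with i | t
  · rfl
  · simp only [uy, χd, χc, zs_add]
    split_ifs
    · rw [sub_eq_zero, ← hh_step]
      congr 1
      simp only [Finsupp.add_apply, hs, Finsupp.single_apply]
      simp only [reduceCtorEq, if_false, if_true, Sum.inl.injEq, zero_ne_one, one_ne_zero,
        add_zero, zero_add]
      rw [M.step_eq]
    · simp

/-- the derivations -/
noncomputable def Dx : Derivation K (Po M K) (Dl K (Po M K)) := der (Sum.inl 0) (ux M K)
noncomputable def Dy : Derivation K (Po M K) (Dl K (Po M K)) := der (Sum.inl 1) (uy M K)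

theorem Dx_X (i : Sg M) (hi : i ≠ Sum.inl 0) : Dx M K (X i) = fn (ux M K i) := der_X _ _ _ hi
theorem Dy_X (i : Sg M) (hi : i ≠ Sum.inl 1) : Dy M K (X i) = fn (uy M K i) := der_X _ _ _ hi

/-- the test algebra -/
abbrev TT : Type _ := TA K (Po M K × Dl K (Po M K)) (opAlg (Dx M K) (Dy M K))

noncomputable def oX (i : Sg M) : opAlg (Dx M K) (Dy M K) := o _ _ (X i) 0 0 0
noncomputable def oD (φ : Dl K (Po M K)) : opAlg (Dx M K) (Dy M K) := o _ _ 0 0 0 φ

/-- the letters -/
noncomputable def tl : Gen M → TT M K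
  | Sum.inl i => ![TA.jl (Dl.th ∘ₗ LinearMap.snd K (Po M K) (Dl K (Po M K))),
      TA.jr (1, 0), TA.j (oX M K (Sum.inl 0)), TA.j (oX M K (Sum.inl 1)),
      TA.j (o _ _ 0 1 0 0), TA.j (o _ _ 0 0 1 0)] i
  | Sum.inr (Sum.inl q) => TA.j (oD M K (fn (χc M K q)))
  | Sum.inr (Sum.inr (Sum.inl t)) => TA.j (oD M K (fn (χd M K t)))
  | Sum.inr (Sum.inr (Sum.inr t)) => TA.j (oX M K (Sum.inr t))

/-- the letters in the unitization -/
noncomputable def ul (g : Gen M) : Unitization K (TT M K) := (tl M K g : Unitization K (TT M K))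

theorem ul_L : ul M K (gL M) =
    ((TA.jl (Dl.th ∘ₗ LinearMap.snd K (Po M K) (Dl K (Po M K))) : TT M K) :
      Unitization K (TT M K)) := rfl
theorem ul_R : ul M K (gR M) = ((TA.jr (1, 0) : TT M K) : Unitization K (TT M K)) := rfl
theorem ul_x : ul M K (gx M) = TA.J (oX M K (Sum.inl 0)) := rfl
theorem ul_y : ul M K (gy M) = TA.J (oX M K (Sum.inl 1)) := rfl
theorem ul_ρ : ul M K (gρ M) = TA.J (o _ _ 0 1 0 0) := rfl
theorem ul_ρ' : ul M K (gρ' M) = TA.J (o _ _ 0 0 1 0) := rfl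
theorem ul_c (q) : ul M K (gc M q) = TA.J (oD M K (fn (χc M K q))) := rfl
theorem ul_d (t) : ul M K (gd M t) = TA.J (oD M K (fn (χd M K t))) := rfl
theorem ul_s (t) : ul M K (gs M t) = TA.J (oX M K (Sum.inr t)) := rfl

theorem oX_mul (i k : Sg M) : oX M K i * oX M K k = o _ _ (X i * X k) 0 0 0 := by
  unfold oX
  rw [o_mul]
  congr 1 <;> simp

theorem oX_pow_mul (i : Sg M) (n : ℕ) (φ : Dl K (Po M K)) :
    oX M K i ^ n * oD M K φ = oD M K ((X i : Po M K) ^ n • φ) := by
  induction n with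
  | zero => simp
  | succ n ih =>
    rw [pow_succ', mul_assoc, ih]
    unfold oX oD
    rw [o_mul]
    congr 1
    · simp
    · simp
    · simp
    · simp [pow_succ', mul_smul]

theorem oX_mul_oD (i : Sg M) (φ : Dl K (Po M K)) :
    oX M K i * oD M K φ = oD M K ((X i : Po M K) • φ) := by
  have := oX_pow_mul M K i 1 φ
  rwa [pow_one, pow_one] at this

theorem oD_sub (φ ψ : Dl K (Po M K)) : oD M K φ - oD M K ψ = oD M K (φ - ψ) := by
  unfold oD
  rw [o_sub]
  congr 1 <;> simp

theorem oD_zero : oD M K 0 = 0 := o_zero _ _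

theorem comm_ρ (i : Sg M) : o (Dx M K) (Dy M K) 0 1 0 0 * oX M K i -
    oX M K i * o (Dx M K) (Dy M K) 0 1 0 0 = oD M K (Dx M K (X i)) := by
  unfold oX oD
  rw [o_mul, o_mul, o_sub]
  congr 1 <;> simp

theorem comm_ρ' (i : Sg M) : o (Dx M K) (Dy M K) 0 0 1 0 * oX M K i -
    oX M K i * o (Dx M K) (Dy M K) 0 0 1 0 = oD M K (Dy M K (X i)) := by
  unfold oX oD
  rw [o_mul, o_mul, o_sub]
  congr 1 <;> simp

theorem fn_zero' : (fn (fun _ => 0) : Dl K (Po M K)) = 0 := by
  refine dl_ext fun s => ?_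
  rw [ev_fn, Dl.ev_zero]

theorem ul_rel [CharZero K] (r : Rel M) : rel M (ul M K) r = 0 := by
  rcases r with i | q | t | t | t
  · fin_cases i
    · change ul M K (gx M) * ul M K (gy M) - ul M K (gy M) * ul M K (gx M) = 0
      rw [ul_x, ul_y, TA.J_mul, TA.J_mul, oX_mul, oX_mul, mul_comm (X (Sum.inl 0)), sub_self]
    · change ul M K (gρ M) * ul M K (gy M) - ul M K (gy M) * ul M K (gρ M) = 0
      rw [ul_ρ, ul_y, TA.J_mul, TA.J_mul, TA.J_sub, comm_ρ, Dx_X _ _ _ (by simp)]
      change TA.J (oD M K (fn fun _ => 0)) = 0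
      rw [fn_zero', oD_zero, TA.J_zero]
    · change ul M K (gρ' M) * ul M K (gx M) - ul M K (gx M) * ul M K (gρ' M) = 0
      rw [ul_ρ', ul_x, TA.J_mul, TA.J_mul, TA.J_sub, comm_ρ', Dy_X _ _ _ (by simp)]
      change TA.J (oD M K (fn fun _ => 0)) = 0
      rw [fn_zero', oD_zero, TA.J_zero]
    · change ul M K (gc M M.qh) = 0
      rw [ul_c]
      have : fn (χc M K M.qh) = fn fun _ => 0 := by
        apply fn_congr
        intro s
        simp only [χc, hh_qh, ite_self]
      rw [this, fn_zero', oD_zero, TA.J_zero]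
    · change ul M K (gL M) * ul M K (gρ M) = 0
      rw [ul_L, ul_ρ, TA.jl_mul_J]
      have : ((Dl.th ∘ₗ LinearMap.snd K (Po M K) (Dl K (Po M K))) ∘ₗ
          ((o (Dx M K) (Dy M K) 0 1 0 0 : opAlg (Dx M K) (Dy M K)) :
            Module.End K (Po M K × Dl K (Po M K)))) = 0 := by
        refine LinearMap.ext fun p => ?_
        rw [coe_o]
        simp only [LinearMap.comp_apply, op_apply, LinearMap.snd_apply, LinearMap.zero_apply]
        simp only [zero_smul, one_smul, smul_zero, zero_add, add_zero]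
        rw [Dl.th_apply]
        exact ev_der _ _ (fun i _ s hs => ux_zero M K i s hs) _
      rw [this]
      have h2 : (TA.jl 0 : TT M K) = 0 := by ext1 <;> simp
      rw [h2, Unitization.inr_zero]
    · change ul M K (gρ M) * ul M K (gR M) = 0
      rw [ul_R, ul_ρ, TA.J_mul_jr, coe_o, op_apply]
      have h2 : (TA.jr 0 : TT M K) = 0 := by ext1 <;> simp
      simp only [zero_mul, zero_smul, one_smul, Derivation.map_one_eq_zero, smul_zero, add_zero]
      change ((TA.jr 0 : TT M K) : Unitization K (TT M K)) = 0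
      rw [h2, Unitization.inr_zero]
    · change ul M K (gL M) * ul M K (gρ' M) = 0
      rw [ul_L, ul_ρ', TA.jl_mul_J]
      have : ((Dl.th ∘ₗ LinearMap.snd K (Po M K) (Dl K (Po M K))) ∘ₗ
          ((o (Dx M K) (Dy M K) 0 0 1 0 : opAlg (Dx M K) (Dy M K)) :
            Module.End K (Po M K × Dl K (Po M K)))) = 0 := by
        refine LinearMap.ext fun p => ?_
        rw [coe_o]
        simp only [LinearMap.comp_apply, op_apply, LinearMap.snd_apply, LinearMap.zero_apply]
        simp only [zero_smul, one_smul, smul_zero, zero_add, add_zero]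
        rw [Dl.th_apply]
        exact ev_der _ _ (fun i _ s hs => uy_zero M K i s hs) _
      rw [this]
      have h2 : (TA.jl 0 : TT M K) = 0 := by ext1 <;> simp
      rw [h2, Unitization.inr_zero]
    · change ul M K (gρ' M) * ul M K (gR M) = 0
      rw [ul_R, ul_ρ', TA.J_mul_jr, coe_o, op_apply]
      have h2 : (TA.jr 0 : TT M K) = 0 := by ext1 <;> simp
      simp only [zero_mul, zero_smul, one_smul, Derivation.map_one_eq_zero, smul_zero, add_zero]
      change ((TA.jr 0 : TT M K) : Unitization K (TT M K)) = 0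
      rw [h2, Unitization.inr_zero]
  · change ul M K (gx M) * ul M K (gc M q) - ul M K (gy M) ^ M.A * ul M K (gc M q) = 0
    rw [ul_x, ul_y, ul_c, TA.J_mul, TA.J_pow_mul, oX_pow_mul, oX_mul_oD, sub_eq_zero]
    congr 2
    have := X_pow_smul_fn (K := K) (Sum.inl 0 : Sg M) 1 (χc M K q)
    rw [pow_one] at this
    rw [this, X_pow_smul_fn]
    apply fn_congr
    intro s
    classical
    simp only [χc, zs_add]
    congr 2
    simp [Finsupp.single_apply]
    ring_nf
  · change ul M K (gx M) * ul M K (gd M t) - ul M K (gy M) ^ M.b t.1 t.2 * ul M K (gd M t) = 0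
    rw [ul_x, ul_y, ul_d, TA.J_mul, TA.J_pow_mul, oX_pow_mul, oX_mul_oD, sub_eq_zero]
    congr 2
    have := X_pow_smul_fn (K := K) (Sum.inl 0 : Sg M) 1 (χd M K t)
    rw [pow_one] at this
    rw [this, X_pow_smul_fn]
    apply fn_congr
    intro s
    classical
    simp only [χd, zs_add]
    congr 2
    simp [Finsupp.single_apply]
    ring_nf
  · change ul M K (gρ M) * ul M K (gs M t) - ul M K (gs M t) * ul M K (gρ M) -
        (ul M K (gd M t) - ul M K (gy M) ^ M.c t.1 t.2 * ul M K (gc M (M.tgt t.1 t.2))) = 0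
    rw [ul_ρ, ul_s, ul_d, ul_y, ul_c, TA.J_mul, TA.J_mul, TA.J_sub, TA.J_pow_mul, TA.J_sub,
      comm_ρ, oX_pow_mul, oD_sub, sub_eq_zero, Dx_X _ _ _ (by simp)]
    congr 2
    rw [X_pow_smul_fn, fn_sub]
    rfl
  · change ul M K (gρ' M) * ul M K (gs M t) - ul M K (gs M t) * ul M K (gρ' M) -
        (ul M K (gy M) ^ (t.2 : ℕ) * ul M K (gc M t.1) - ul M K (gd M t)) = 0
    rw [ul_ρ', ul_s, ul_d, ul_y, ul_c, TA.J_mul, TA.J_mul, TA.J_sub, TA.J_pow_mul, TA.J_sub,
      comm_ρ', oX_pow_mul, oD_sub, sub_eq_zero, Dy_X _ _ _ (by simp)]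
    congr 2
    rw [X_pow_smul_fn, fn_sub]
    rfl

theorem ul_val (N : ℕ) (hN : ¬ M.Halts (M.q0, N)) : val M (ul M K) (M.q0, N) ≠ 0 := by
  have h1 : val M (ul M K) (M.q0, N) =
      ul M K (gL M) * (ul M K (gy M) ^ N * ul M K (gc M M.q0)) * ul M K (gR M) := by
    simp only [val, mul_assoc]
  rw [h1, ul_y, ul_c, TA.J_pow_mul, oX_pow_mul, ul_L, ul_R, TA.jl_mul_J, TA.jl_mul_jr]
  intro h
  rw [← Unitization.inr_zero K, Unitization.inr_injective.eq_iff] at h
  have h2 := congrArg TA.k h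
  rw [TA.k_jk, TA.k_zero] at h2
  simp only [LinearMap.comp_apply, oD, coe_o, op_apply, LinearMap.snd_apply] at h2
  simp only [zero_smul, one_smul, smul_zero, zero_add, add_zero, Dl.th_apply] at h2
  rw [X_pow_smul_fn] at h2
  have h3 : (1 : Po M K) = monomial 0 1 := rfl
  rw [h3, ev_fn] at h2
  have h4 : zs M (0 + Finsupp.single (Sum.inl 1) N) := by
    rw [zs_add]
    intro t
    rfl
  rw [χc, if_pos h4] at h2
  have h5 : ((0 + Finsupp.single (Sum.inl 1) N : Sg M →₀ ℕ)) (Sum.inl 0) = 0 := by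
    simp [Finsupp.single_apply]
  have h6 : ((0 + Finsupp.single (Sum.inl 1) N : Sg M →₀ ℕ)) (Sum.inl 1) = N := by
    simp
  rw [h5, h6, mul_zero, zero_add, hh, if_neg hN] at h2
  exact one_ne_zero h2

end

end Pool.Agent.H.MP_f5ceca_al
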